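import Pool.Agent.SPN.FinC
import Pool.Agent.SOD.NoRev

/-! MP_66ba69_lc. For every number `c`: polynomial-time recognition of the strict outerconfluent graphs whose prime induced
subgraphs have at most `c` centres and no K6 - P4; with `c = 0` in particular of all strict outerconfluent graphs without an
induced wheel W4 and without an induced K6 - P4.

Drawings (`Drawing`, `RepresentsW`, `StrictW`, `InDisc` in `Pool.Agent.SOC.Drawing` and `Pool.Agent.SOD.Defs`) are geometric:
finitely many `C^1` regular simple arcs in the closed unit disc joining vertices (on the unit circle) and junctions, meeting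
only at shared end points, at every junction tangent to one line; a smooth walk runs through arcs and junctions without sharp
turns; `G` is represented when adjacent = joined by a smooth walk; strict = exactly one smooth walk for every edge, none from
a vertex to itself. In such a drawing no smooth walk passes a junction twice (part (2)), so smooth walks are smooth paths.

`W4 G p p' q q' r`: the wheel `K_{1,2,2}`, an induced 4-cycle and a vertex adjacent to its four vertices. `NoK6P4 G`: there are no
six different vertices `a b c d x y` which induce `K_6` without the edges of a path on four vertices. `PrimeG H`: `H` is connected and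
has no split (both sides with at least 2 vertices). `Centre G z L`: `L` and `V - L - z` have at least 2 vertices, no two edges
leaving `L` are a rigid pair (disjoint, not opposite in a 4-cycle), the same for `L + z`, every edge from `L` to
`V - L - z` has both ends adjacent to `z`, and `L` separates both pairs of opposite vertices of the induced 4-cycle of some
wheel `W4` (`EPC` in `Pool.Agent.SOE.Defs`). `graphOf M`: the graph with the adjacency matrix `M`. -/

set_option autoImplicit false

open FP NPC

namespace Pool.Agent.Results.MP_66ba69_lc.FewCentres

open Pool.Agent.SOC Pool.Agent.SOD Pool.Agent.SOS Pool.Agent.SOE Pool.Agent.SOW Pool.Agent.SOZ Pool.Agent.SON Pool.Agent.SPN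

/-- `G` is strict outerconfluent: it has a confluent drawing in the closed disc with the vertices on the circle, which
represents `G` (adjacent = joined by a smooth walk), such that every edge has exactly one smooth walk and no smooth walk
leads from a vertex to itself -/
def StrictOC {V : Type} (G : SimpleGraph V) : Prop :=
  ∃ (s : List V) (D : Drawing V), D.RepresentsW G ∧ D.StrictW G ∧ D.InDisc s

open Classical in
theorem strictOC_iff {V : Type} [Finite V] {G : SimpleGraph V} : StrictOC G ↔ SOR G := by
  have h1 : StrictOC G ↔ ∃ s, FixedOrderW G s :=
    ⟨fun ⟨s, D, h⟩ => ⟨s, fixedOrderS_iff.1 ⟨D, h⟩⟩, fun ⟨s, h⟩ => ⟨s, fixedOrderS_iff.2 h⟩⟩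
  rw [h1, sor_iff_list]
  constructor
  · rintro ⟨s, h⟩
    obtain ⟨D, h2, h3, h4, h5⟩ := h
    have hs : IsEnum s := h5.2.1
    exact ⟨s, hs, (fixed_order_iff hs).1 ⟨D, h2, h3, h4, h5⟩⟩
  · rintro ⟨s, hs, hT⟩
    exact ⟨s, (fixed_order_iff hs).2 hT⟩

theorem result :
    -- (1) for every number `c` there is a polynomial-time algorithm `f` ...
    (∀ c : ℕ, ∃ f : List (List Bool) → Bool,
      PolyTime (fun M => encStr (enc M)) encBool f ∧
      -- (1a) ... whose answer is right for all graphs such that every prime induced subgraph has at most `c` centres (vertices
      -- `z` such that `Centre H z L` for some `L`) and no induced K6 - P4,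
      (∀ M : List (List Bool), (∀ (n : ℕ) (H : SimpleGraph (Fin n)), Nonempty (H ↪g graphOf M) → PrimeG H →
          {z | ∃ L, Centre H z L}.ncard ≤ c ∧ NoK6P4 H) →
        (f M = true ↔ StrictOC (graphOf M))) ∧
      -- (1b) in particular for all graphs without induced W4 and without induced K6 - P4,
      (∀ M : List (List Bool), (∀ p p' q q' r, ¬ W4 (graphOf M) p p' q q' r) → NoK6P4 (graphOf M) →
        (f M = true ↔ StrictOC (graphOf M))) ∧
      -- (1c) and whose answer yes is right for all graphs
      (∀ M : List (List Bool), f M = true → StrictOC (graphOf M))) ∧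
    -- (2) the drawings: in a drawing as in `StrictOC` no smooth walk passes a junction twice; a graph is `StrictOC` iff it has
    -- a drawing which represents it and is strict with smooth paths (different junctions) such that no smooth walk passes
    -- a junction twice
    (∀ (V : Type) [Finite V] (G : SimpleGraph V),
      (∀ D : Drawing V, D.RepresentsW G → D.StrictW G → D.NoRevisit) ∧
      (StrictOC G ↔ ∃ (s : List V) (D : Drawing V), D.Represents G ∧ D.Strict G ∧ D.NoRevisit ∧ D.InDisc s)) := by
  refine ⟨fun c => ⟨algX c, (poly_algX c).polyTime, ?_, ?_, ?_⟩, ?_⟩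
  · intro M h
    rw [strictOC_iff]
    exact algX_iff h
  · intro M h1 h2
    rw [strictOC_iff]
    exact algX_free h1 h2
  · intro M h
    rw [strictOC_iff]
    exact algX_sound h
  · intro V _ G
    refine ⟨fun D h1 h2 => noRevisit_of_strictW h1 h2, ?_⟩
    exact ⟨fun ⟨s, D, h⟩ => ⟨s, fixedOrderS_iff.1 ⟨D, h⟩⟩, fun ⟨s, h⟩ => ⟨s, fixedOrderS_iff.2 h⟩⟩

end Pool.Agent.Results.MP_66ba69_lc.FewCentres
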