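import Pool.Agent.SOC.Main

/-! MP_66ba69_lc. The cyclic orders of the vertices in outerconfluent drawings: structure.

Drawings (`Drawing`, `Represents`, `InDisc` in `Pool.Agent.SOC.Drawing`) are geometric: finitely many `C^1` regular simple arcs
in the closed unit disc joining vertices (on the unit circle) and junctions, meeting only at shared end points, at every
junction tangent to one line; a smooth path passes different junctions without sharp turns; `G` is represented when
adjacent = joined by a smooth path (several smooth paths for an edge are allowed); `InDisc s` : `s` is the counterclockwise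
order of the vertices on the circle.

`Rigid G a b c d` : `ab`, `cd` are disjoint edges and not opposite edges of a 4-cycle. `IsWO G s` : in the cyclic order `s` no
rigid pair of edges crosses. `IsPCut G X` : no two edges leaving `X` form a rigid pair. -/

set_option autoImplicit false

namespace Pool.Agent.Results.MP_66ba69_lc.OrderStructure

open Pool.Agent.SOC

open Classical in
theorem result (V : Type) [Finite V] [DecidableEq V] (G : SimpleGraph V) (hG : G.Connected) :
    -- (1) in the boundary order of an outerconfluent drawing (strict or not) no rigid pair crosses
    (∀ (D : Drawing V) (s : List V), D.Represents G → D.InDisc s → IsWO G s) ∧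
    -- (2) without nontrivial P-cut the boundary order is unique up to rotation and reversal
    ((∀ X : Set V, Nontriv X → ¬ IsPCut G X) → ∀ (D D' : Drawing V) (s s' : List V),
      D.Represents G → D.InDisc s → D'.Represents G → D'.InDisc s' →
      s' ~r s ∨ s' ~r s.reverse) ∧
    -- (3) two orders without crossing rigid pair differ by a family of P-cuts
    (∀ s s' : List V, IsEnum s → IsEnum s' → IsWO G s → IsWO G s' → ∀ v : V,
      ∃ L : List (Set V), (∀ X ∈ L, IsPCut G X) ∧ ∀ x y, x ≠ v → y ≠ v → x ≠ y →
        ((CycBefore s v x y ↔ CycBefore s' v x y) ↔
          Even (L.filter (fun X => decide (x ∈ X ∧ y ∈ X))).length)) := by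
  have hG' := hG.preconnected
  refine ⟨fun D s h1 h2 => ?_, fun hP D D' s s' h1 h2 h3 h4 => ?_, ?_⟩
  · exact sound h1 h2
  · exact unique_order hG' hP h2.2.1 h4.2.1 (sound h1 h2) (sound h3 h4)
  · intro s s' hs hs' h h' v
    exact pcuts_between hG' hs hs' h h' v

end Pool.Agent.Results.MP_66ba69_lc.OrderStructure
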