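import Pool.Agent.SOC.Main
import Pool.Agent.SOC.AlgoPoly

/-! MP_66ba69_lc. The cyclic order of the vertices in strict outerconfluent drawings: a polynomial-time algorithm.

Drawings (`Drawing`, `Represents`, `Strict`, `InDisc`, `FixedOrder`, `StrictOuterconfluent` in `Pool.Agent.SOC.Drawing`) are
geometric: finitely many `C^1` regular simple arcs in the closed unit disc joining vertices (on the unit circle) and junctions,
meeting only at shared end points, at every junction tangent to one line; a smooth path passes different junctions
without sharp turns; `G` is represented when adjacent = joined by a smooth path; strict = exactly one smooth path for every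
edge, none from a vertex to itself; `InDisc s` : `s` is the counterclockwise order of the vertices on the circle.

`Rigid G a b c d` : `ab`, `cd` are disjoint edges and not opposite edges of a 4-cycle. `IsWO G s` : in the cyclic order `s` no
rigid pair of edges crosses. `IsPCut G X` : no two edges leaving `X` form a rigid pair. -/

set_option autoImplicit false

open FP NPC

namespace Pool.Agent.Results.MP_66ba69_lc.OuterOrder

open Pool.Agent.SOC

theorem result :
    -- a polynomial-time algorithm for the order
    ∃ f : List (List Bool) → Option (List ℕ),
      PolyTime (fun M => encStr (enc M)) (fun r => encStr (enc r)) f ∧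
      ∀ M : List (List Bool), (graphOf M).Connected →
        -- (1) an order without crossing rigid pair exists iff the linear system over `F_2` is solvable, iff `f M` is
        -- not `none`; then `f M` is such an order
        (f M ≠ none ↔ ∃ w : Fin M.length → Fin M.length → ZMod 2, Skew 1 w ∧
          IsSol (graphOf M) w) ∧
        (f M ≠ none ↔ ∃ s : List (Fin M.length), IsEnum s ∧ IsWO (graphOf M) s) ∧
        (∀ l, f M = some l → ∃ s : List (Fin M.length), s.map Fin.val = l ∧ IsEnum s ∧
          IsWO (graphOf M) s) ∧
        -- (2) without nontrivial P-cut, the graph is strict outerconfluent iff it has a strict outerconfluent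
        -- drawing with the vertices in the cyclic order `f M`
        ((∀ X : Set (Fin M.length), Nontriv X → ¬ IsPCut (graphOf M) X) →
          (StrictOuterconfluent (graphOf M) ↔
            ∃ s : List (Fin M.length), f M = some (s.map Fin.val) ∧
              FixedOrder (graphOf M) s)) := by
  refine ⟨outerOrder, poly_outerOrder.polyTime, ?_⟩
  intro M hG
  have hG' := hG.preconnected
  obtain ⟨h1, h2⟩ := outerOrder_none_iff hG'
  refine ⟨?_, ?_, ?_, ?_⟩
  · rw [Ne, h1, not_not]
  · rw [Ne, h2, not_not]
  · intro l hl
    exact outerOrder_some hG' hl
  · intro hP
    exact strict_iff hG' hP

end Pool.Agent.Results.MP_66ba69_lc.OuterOrder
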