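import Pool.Agent.SOD.NoRev
import Pool.Agent.SOS.AlgSor
import Pool.Agent.SOS.AlgPoly
import Pool.Agent.SOS.OrdList
import Pool.Agent.PolyTime.Converse
import Pool.Agent.PolyTime.Decode

/-! MP_66ba69_lc. Strict outerconfluent graphs and split decomposition: reduction of the recognition problem to prime graphs.

Drawings (`Drawing`, `RepresentsW`, `StrictW`, `InDisc` in `Pool.Agent.SOC.Drawing` and `Pool.Agent.SOD.Defs`) are geometric:
finitely many `C^1` regular simple arcs in the closed unit disc joining vertices (on the unit circle) and junctions, meeting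
only at shared end points, at every junction tangent to one line; a smooth walk runs through arcs and junctions without sharp
turns; `G` is represented when adjacent = joined by a smooth walk; strict = exactly one smooth walk for every edge, none from
a vertex to itself.

`IsSpl G A a₀ b₀` (`Pool.Agent.SOS.Defs`): `a₀ b₀` is an edge, `a₀` is in `A`, `b₀` is not, and `a` in `A`, `b` outside of `A` are
adjacent iff `a b₀` and `a₀ b` are edges. `PrimeG H`: `H` is connected and every `A`, `a₀`, `b₀` of this kind has `A = {a₀}` or
complement `{b₀}` (no split with two vertices on both sides). `graphOf M`: the graph with the adjacency matrix `M`. -/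

set_option autoImplicit false

open FP NPC

namespace Pool.Agent.Results.MP_66ba69_lc.PrimeReduction

open Pool.Agent.SOC Pool.Agent.SOD Pool.Agent.SOS

/-- `G` is strict outerconfluent: it has a confluent drawing in the closed disc with the vertices on the circle, which
represents `G` (adjacent = joined by a smooth walk), such that every edge has exactly one smooth walk and no smooth walk
leads from a vertex to itself -/
def StrictOC {V : Type} (G : SimpleGraph V) : Prop :=
  ∃ (s : List V) (D : Drawing V), D.RepresentsW G ∧ D.StrictW G ∧ D.InDisc s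

open Classical in
theorem strictOC_iff {V : Type} [Finite V] {G : SimpleGraph V} : StrictOC G ↔ SOR G := by
  have h1 : StrictOC G ↔ ∃ s, FixedOrderW G s :=
    ⟨fun ⟨s, D, h⟩ => ⟨s, fixedOrderS_iff.1 ⟨D, h⟩⟩, fun ⟨s, h⟩ => ⟨s, fixedOrderS_iff.2 h⟩⟩
  rw [h1, sor_iff_list]
  constructor
  · rintro ⟨s, h⟩
    obtain ⟨D, h2, h3, h4, h5⟩ := h
    have hs : IsEnum s := h5.2.1
    exact ⟨s, hs, (fixed_order_iff hs).1 ⟨D, h2, h3, h4, h5⟩⟩
  · rintro ⟨s, hs, hT⟩
    exact ⟨s, (fixed_order_iff hs).2 hT⟩

/-- the adjacency matrix of a graph -/
theorem exists_mat {V : Type} [Finite V] (G : SimpleGraph V) : ∃ M : List (List Bool), Nonempty (G ≃g graphOf M) := by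
  classical
  obtain ⟨n, ⟨e⟩⟩ := Finite.exists_equiv_fin V
  have hl : ((List.finRange n).map fun i => (List.finRange n).map fun j => decide (G.Adj (e.symm i) (e.symm j))).length = n := by
    rw [List.length_map, List.length_finRange]
  refine ⟨(List.finRange n).map fun i => (List.finRange n).map fun j => decide (G.Adj (e.symm i) (e.symm j)),
    ⟨⟨e.trans (finCongr hl.symm), ?_⟩⟩⟩
  intro a b
  show adjB _ (e a).val (e b).val = true ↔ G.Adj a b
  have hg : ∀ x y : V, ((((List.finRange n).map fun i => (List.finRange n).map fun j =>
      decide (G.Adj (e.symm i) (e.symm j))).getD (e x).val []).getD (e y).val false) = decide (G.Adj x y) := by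
    intro x y
    have h1 : ((List.finRange n).map fun i => (List.finRange n).map fun j =>
        decide (G.Adj (e.symm i) (e.symm j))).getD (e x).val [] = (List.finRange n).map fun j => decide (G.Adj x (e.symm j)) := by
      rw [List.getD_eq_getElem (hn := by rw [hl]; exact (e x).2), List.getElem_map, List.getElem_finRange]
      simp
    rw [h1, List.getD_eq_getElem (hn := by rw [List.length_map, List.length_finRange]; exact (e y).2), List.getElem_map,
      List.getElem_finRange]
    simp
  unfold adjB
  rw [hg, hg]
  simp only [ne_eq, Bool.and_eq_true, decide_eq_true_eq, Bool.or_eq_true]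
  constructor
  · rintro ⟨_, h | h⟩
    · exact h
    · exact h.symm
  · intro h
    exact ⟨fun k => h.ne (e.injective (Fin.ext k)), Or.inl h⟩

/-- the graph of the submatrix is an induced subgraph -/
theorem emb_sub {M : List (List Bool)} {W : List ℕ} (hW : W.Nodup) (hr : ∀ w ∈ W, w < M.length) :
    Nonempty (graphOf (sub M W) ↪g graphOf M) := by
  have hl : (sub M W).length = W.length := sub_length
  refine ⟨⟨⟨fun i => ⟨W[i.val]'(by have := i.isLt; omega), hr _ (List.getElem_mem _)⟩, ?_⟩, ?_⟩⟩
  · intro i j h
    have h1 : W[i.val]'(by have := i.isLt; omega) = W[j.val]'(by have := j.isLt; omega) := by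
      have := congrArg (fun x : Fin M.length => x.val) h
      simpa using this
    exact Fin.ext ((List.Nodup.getElem_inj_iff hW).1 h1)
  · intro i j
    have hi : i.val < W.length := by have := i.isLt; omega
    have hj : j.val < W.length := by have := j.isLt; omega
    have h1 := adjB_sub (M := M) hW hi hj
    show adjB M (W[i.val]) (W[j.val]) = true ↔ adjB (sub M W) i.val j.val = true
    rw [h1]

/-- the algorithm, with a test for prime graphs which is right for the prime induced subgraphs -/
theorem allSOR_of {prime : List (List Bool) → Bool} {M : List (List Bool)}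
    (hp : ∀ N : List (List Bool), 4 ≤ N.length → PrimeG (graphOf N) → Nonempty (graphOf N ↪g graphOf M) →
      (prime N = true ↔ SOR (graphOf N))) : allSOR prime M = true ↔ SOR (graphOf M) := by
  rw [rounds_iff M.length]
  unfold allSOR
  rw [List.all_eq_true]
  refine forall₂_congr ?_
  intro W hW
  have hs := rounds_sub hW
  have hn : W.Nodup := List.Nodup.sublist hs List.nodup_range
  have hr : ∀ w ∈ W, w < M.length := fun w hw => List.mem_range.1 (hs.subset hw)
  simp only [Bool.or_eq_true, decide_eq_true_eq]
  constructor
  · rintro (h | h)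
    · exact sor_small _ (algsor_ncard.trans h)
    · rcases rounds_final hW with h1 | h1
      · exact sor_small _ (algsor_ncard.trans h1)
      · have h4 := (step_final hn h1).1
        rw [sorw_iff hn hr]
        exact (hp _ (by rw [sub_length]; exact h4) (prime_sub hn h1) (emb_sub hn hr)).1 h
  · intro h
    rcases rounds_final hW with h1 | h1
    · exact Or.inl h1
    · right
      have h4 := (step_final hn h1).1
      rw [sorw_iff hn hr] at h
      exact (hp _ (by rw [sub_length]; exact h4) (prime_sub hn h1) (emb_sub hn hr)).2 h

/-- a graph is fine iff all its prime induced subgraphs are -/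
theorem prime_iff {V : Type} [Finite V] (G : SimpleGraph V) :
    SOR G ↔ ∀ (n : ℕ) (H : SimpleGraph (Fin n)), Nonempty (H ↪g G) → PrimeG H → SOR H := by
  constructor
  · rintro h n H ⟨e⟩ _
    have h1 := sor_comap (G := G) e e.injective h
    have e1 : G.comap e = H := by
      ext a b
      exact e.map_rel_iff
    rw [e1] at h1
    exact h1
  · intro h
    obtain ⟨M, ⟨e⟩⟩ := exists_mat G
    rw [sor_iso e, rounds_iff M.length]
    intro W hW
    have hs := rounds_sub hW
    have hn : W.Nodup := List.Nodup.sublist hs List.nodup_range
    have hr : ∀ w ∈ W, w < M.length := fun w hw => List.mem_range.1 (hs.subset hw)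
    rcases rounds_final hW with h1 | h1
    · exact sor_small _ (algsor_ncard.trans h1)
    · rw [sorw_iff hn hr]
      obtain ⟨f⟩ := emb_sub hn hr
      exact h _ (graphOf (sub M W)) ⟨f.trans e.symm.toEmbedding⟩ (prime_sub hn h1)

theorem poly_of_pt {p : List (List Bool) → Bool} (hp : PolyTime (fun M => encStr (enc M)) encBool p) : Poly p := by
  have h0 : Poly (fun M : List (List Bool) => (enc M : List Bool)) := FP.Poly.encode (f := fun a : List (List Bool) => a) (by fun_prop)
  have h1 : Poly (fun M : List (List Bool) => encStr (enc M)) :=
    FP.Poly.map (g := fun _ b => (some b : Sym)) h0 (by fun_prop)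
  have h2 : Poly (fun M : List (List Bool) => encBool (p M)) := poly_of_polyTime (f := p) (eb := encBool) h1 hp
  have h3 : Poly (fun M : List (List Bool) => (((encBool (p M)).head?).getD none).getD false) := by fun_prop
  exact h3.congr (fun M => rfl)

theorem result :
    -- (1) splits: `G` is strict outerconfluent iff the two graphs of the split decomposition are (the vertices of one side and
    -- one vertex of the other side which has neighbours on this side)
    (∀ (V : Type) [Finite V] (G : SimpleGraph V) (A : Set V) (a₀ b₀ : V), IsSpl G A a₀ b₀ →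
      (StrictOC G ↔ StrictOC (G.induce (A ∪ {b₀})) ∧ StrictOC (G.induce (Aᶜ ∪ {a₀})))) ∧
    -- (2) `G` is strict outerconfluent iff all its prime induced subgraphs are
    (∀ (V : Type) [Finite V] (G : SimpleGraph V),
      StrictOC G ↔ ∀ (n : ℕ) (H : SimpleGraph (Fin n)), Nonempty (H ↪g G) → PrimeG H → StrictOC H) ∧
    -- (3) every polynomial-time test `p` gives a polynomial-time test `f` which is right for all graphs for whose prime induced
    -- subgraphs `p` is right
    (∀ p : List (List Bool) → Bool, PolyTime (fun M => encStr (enc M)) encBool p →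
      ∃ f : List (List Bool) → Bool, PolyTime (fun M => encStr (enc M)) encBool f ∧
        ∀ M, (∀ N, Nonempty (graphOf N ↪g graphOf M) → PrimeG (graphOf N) → (p N = true ↔ StrictOC (graphOf N))) →
          (f M = true ↔ StrictOC (graphOf M))) ∧
    -- (4) in particular there is a polynomial-time algorithm for all graphs iff there is one for prime graphs
    ((∃ f : List (List Bool) → Bool, PolyTime (fun M => encStr (enc M)) encBool f ∧
        ∀ M, f M = true ↔ StrictOC (graphOf M)) ↔
      ∃ p : List (List Bool) → Bool, PolyTime (fun M => encStr (enc M)) encBool p ∧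
        ∀ M, PrimeG (graphOf M) → (p M = true ↔ StrictOC (graphOf M))) := by
  have h3 : ∀ p : List (List Bool) → Bool, PolyTime (fun M => encStr (enc M)) encBool p →
      ∃ f : List (List Bool) → Bool, PolyTime (fun M => encStr (enc M)) encBool f ∧
        ∀ M, (∀ N, Nonempty (graphOf N ↪g graphOf M) → PrimeG (graphOf N) → (p N = true ↔ StrictOC (graphOf N))) →
          (f M = true ↔ StrictOC (graphOf M)) := by
    intro p hp
    refine ⟨allSOR p, (poly_allSOR (poly_of_pt hp)).polyTime, fun M h => ?_⟩
    rw [strictOC_iff]
    exact allSOR_of fun N _ hN he => by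
      rw [← strictOC_iff]
      exact h N he hN
  refine ⟨?_, ?_, h3, ?_⟩
  · intro V _ G A a₀ b₀ hs
    rw [strictOC_iff, strictOC_iff, strictOC_iff, ← sor_restr_iff, ← sor_restr_iff]
    exact ⟨fun h => ⟨sor_restr _ h, sor_restr _ h⟩, fun h => split_comp hs h.1 h.2⟩
  · intro V _ G
    rw [strictOC_iff, prime_iff]
    refine forall₂_congr fun n H => ?_
    rw [strictOC_iff]
  · constructor
    · rintro ⟨f, hf, h⟩
      exact ⟨f, hf, fun M _ => h M⟩
    · rintro ⟨p, hp, h⟩
      obtain ⟨f, hf, hf'⟩ := h3 p hp
      exact ⟨f, hf, fun M => hf' M fun N _ hN => h N hN⟩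

end Pool.Agent.Results.MP_66ba69_lc.PrimeReduction
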